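import Pool.Agent.Helper9.TW.St

/-!
# Project TW (MP_5e9b96_nt): module C4, sum over the index sets of the fundamental lemma
-/

set_option autoImplicit false

noncomputable section

namespace Pool.Agent.Helper9.TW

open Finset Filter Topology
open Pool.Agent.Helper18.TR (fam0 fam1 StLevel)

namespace MC4

theorem fam0_sub (w b : ℕ) (Q : Finset ℕ) : fam0 w b Q ⊆ Q.powerset := by
  intro T hT
  simp only [fam0, Finset.mem_filter] at hT
  exact hT.1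

theorem fam1_sub (w b : ℕ) (Q : Finset ℕ) : fam1 w b Q ⊆ Q.powerset := by
  intro T hT
  simp only [fam1, Finset.mem_filter] at hT
  exact hT.1

theorem fm_sub (i a : ℕ) (θ : ℝ) (u : ℕ) : fm i a θ u ⊆ (Qs a θ).powerset := by
  unfold fm
  split_ifs
  · exact fam0_sub _ _ _
  · exact Finset.union_subset (fam0_sub _ _ _) (fam1_sub _ _ _)

theorem fm_sub' (i a : ℕ) (θ : ℝ) (u : ℕ) :
    fm i a θ u ⊆ fam0 ⌊(a : ℝ) ^ θ⌋₊ u (Qs a θ) ∪ fam1 ⌊(a : ℝ) ^ θ⌋₊ u (Qs a θ) := by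
  unfold fm
  split_ifs
  · exact Finset.subset_union_left
  · exact Finset.Subset.refl _

theorem Qs_mem {a : ℕ} {θ : ℝ} {p : ℕ} (hp : p ∈ Qs a θ) :
    p.Prime ∧ 7 ≤ p ∧ p ≤ ⌊(a : ℝ) ^ θ⌋₊ ∧ (p : ℝ) < (a : ℝ) ^ θ := by
  unfold Qs at hp
  rw [mem_filter, mem_Icc] at hp
  exact ⟨hp.2.1, hp.1.1, hp.1.2, hp.2.2⟩

theorem rt_le (a p : ℕ) : rt a p ≤ p := by
  unfold rt
  refine le_trans (Finset.card_filter_le _ _) (le_of_eq (Finset.card_range p))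

/-- coprimality -/
theorem cop {a m : ℕ} {θ : ℝ} {T : Finset ℕ} (hT : T ⊆ Qs a θ) (h5 : (5 : ℝ) < (a : ℝ) ^ θ)
    (hm : Rg a ((a : ℝ) ^ θ) m) : Nat.Coprime m (a * (30 * ∏ p ∈ T, p)) := by
  refine Nat.Coprime.symm (Nat.Coprime.symm (Nat.coprime_of_dvd fun p hp hpm hpn => ?_))
  obtain ⟨h1, h2⟩ := hm.2 p hp hpm
  rcases (Nat.Prime.dvd_mul hp).1 hpn with h | h
  · exact h2 h
  · rcases (Nat.Prime.dvd_mul hp).1 h with h | h
    · have h3 : p ≤ 5 := by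
        have h4 : p ∣ 2 * 3 * 5 := h
        rcases (Nat.Prime.dvd_mul hp).1 h4 with h5 | h5
        · rcases (Nat.Prime.dvd_mul hp).1 h5 with h6 | h6
          · exact le_trans (Nat.le_of_dvd (by norm_num) h6) (by norm_num)
          · exact le_trans (Nat.le_of_dvd (by norm_num) h6) (by norm_num)
        · exact Nat.le_of_dvd (by norm_num) h5
      have h4 : (p : ℝ) ≤ 5 := by exact_mod_cast h3
      linarith
    · obtain ⟨q, hq, hpq⟩ := (Prime.dvd_finsetProd_iff hp.prime _).1 h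
      obtain ⟨hq1, _, _, hq4⟩ := Qs_mem (hT hq)
      rw [(Nat.prime_dvd_prime_iff_eq hp hq1).1 hpq] at h1
      linarith

/-- the number of index sets -/
theorem fm_card {i a : ℕ} {θ : ℝ} {u W : ℕ} (hW : ∀ T ∈ fm i a θ u, ∏ p ∈ T, p ≤ W) :
    (fm i a θ u).card ≤ W := by
  have h1 : (fm i a θ u).card ≤ (Icc 1 W).card := by
    refine Finset.card_le_card_of_injOn (fun T => ∏ p ∈ T, p) ?_ ?_
    · intro T hT
      have hT' : T ∈ fm i a θ u := by exact_mod_cast hT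
      have h2 : 0 < ∏ p ∈ T, p := Finset.prod_pos fun p hp =>
        (Qs_mem (mem_powerset.1 (fm_sub i a θ u hT') hp)).1.pos
      rw [Finset.mem_coe, mem_Icc]
      exact ⟨h2, hW T hT'⟩
    · intro T hT S hS hTS
      have hT' : T ∈ fm i a θ u := by exact_mod_cast hT
      have hS' : S ∈ fm i a θ u := by exact_mod_cast hS
      have h3 := Nat.primeFactors_prod (s := T) fun p hp =>
        (Qs_mem (mem_powerset.1 (fm_sub i a θ u hT') hp)).1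
      have h4 := Nat.primeFactors_prod (s := S) fun p hp =>
        (Qs_mem (mem_powerset.1 (fm_sub i a θ u hS') hp)).1
      simp only at hTS
      rw [← h3, ← h4, hTS]
  simpa using h1

theorem th_sum (i a b0 : ℕ) (θ : ℝ) (u : ℕ) (G : ℕ → ℝ) :
    ∑ b ∈ (Bb a).filter (fun b => b % 30 = b0), th i a θ u b * G b =
      ∑ T ∈ fm i a θ u, (-1 : ℝ) ^ T.card *
        ∑ b ∈ (Bb a).filter (fun b : ℕ => b % 30 = b0 ∧ ∀ p ∈ T, (p : ℤ) ∣ Fb a b), G b := by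
  classical
  have h1 : ∀ b : ℕ, th i a θ u b * G b = ∑ T ∈ fm i a θ u, (-1 : ℝ) ^ T.card *
      ((if ∀ p : ℕ, p ∈ T → (p : ℤ) ∣ Fb a b then (1 : ℝ) else 0) * G b) := by
    intro b
    unfold th
    rw [Finset.sum_mul]
    refine Finset.sum_congr rfl fun T _ => ?_
    rw [mul_assoc]
    congr 2
    by_cases h : ∀ p : ℕ, p ∈ T → (p : ℤ) ∣ Fb a b
    · rw [if_pos h, Finset.prod_congr rfl (fun p hp => if_pos (h p hp))]
      simp
    · rw [if_neg h]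
      push Not at h
      obtain ⟨p, hp, hpF⟩ := h
      exact Finset.prod_eq_zero hp (if_neg hpF)
  simp only [h1]
  rw [Finset.sum_comm]
  refine Finset.sum_congr rfl fun T _ => ?_
  rw [← Finset.mul_sum]
  congr 1
  rw [← Finset.filter_filter, Finset.sum_filter (fun b : ℕ => ∀ p ∈ T, (p : ℤ) ∣ Fb a b)]
  refine Finset.sum_congr rfl fun b _ => ?_
  by_cases h : ∀ p : ℕ, p ∈ T → (p : ℤ) ∣ Fb a b
  · rw [if_pos h, one_mul, if_pos h]
  · rw [if_neg h, zero_mul, if_neg h]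

end MC4

open MC4 in
theorem hC4 (h3 : StC3) (hLv : StLevel) : StC4 := by
  intro δ u hδ hδ1
  obtain ⟨C, hC, H3⟩ := h3 δ hδ hδ1
  obtain ⟨B₀, hB₀⟩ := hLv u
  refine ⟨δ / (200 * (B₀ + 1)), by positivity, fun θ hθ hθ1 => ?_⟩
  have hθB : θ * B₀ ≤ δ / 200 := by
    rw [le_div_iff₀ (by positivity)] at hθ1
    have : 0 ≤ θ := hθ.le
    nlinarith
  have t1 : Tendsto (fun a : ℕ => (a : ℝ) ^ θ) atTop atTop :=
    (tendsto_rpow_atTop hθ).comp tendsto_natCast_atTop_atTop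
  have t2 : Tendsto (fun a : ℕ => (a : ℝ) ^ (δ / 10 - δ / 200)) atTop atTop :=
    (tendsto_rpow_atTop (by linarith)).comp tendsto_natCast_atTop_atTop
  obtain ⟨a₀, ha₀⟩ := Filter.eventually_atTop.1
    (((t1.eventually_gt_atTop 5).and (t2.eventually_ge_atTop 30)).and (eventually_ge_atTop 1))
  refine ⟨C, a₀, hC, fun i a b0 B al be ha hb0 hal hbe hal' hbe' => ?_⟩
  obtain ⟨⟨ha5, ha30⟩, ha1⟩ := ha₀ a ha
  have haR : (1 : ℝ) ≤ a := by exact_mod_cast ha1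
  have ha0 : (0 : ℝ) < a := by linarith
  obtain ⟨w, hw⟩ : ∃ w : ℕ, w = ⌊(a : ℝ) ^ θ⌋₊ := ⟨_, rfl⟩
  have hw1 : 1 ≤ w := by
    rw [hw]
    exact Nat.le_floor (by push_cast; linarith)
  have hwR : (w : ℝ) ≤ (a : ℝ) ^ θ := by
    rw [hw]
    exact Nat.floor_le (by positivity)
  have hwB : ((w ^ B₀ : ℕ) : ℝ) ≤ (a : ℝ) ^ (δ / 200) := by
    push_cast
    calc (w : ℝ) ^ B₀ ≤ ((a : ℝ) ^ θ) ^ B₀ := pow_le_pow_left₀ (by positivity) hwR _
      _ = (a : ℝ) ^ (θ * B₀) := by rw [← Real.rpow_natCast, ← Real.rpow_mul ha0.le]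
      _ ≤ _ := Real.rpow_le_rpow_of_exponent_le haR hθB
  have hlev : ∀ T ∈ fm i a θ u, ∏ p ∈ T, p ≤ w ^ B₀ := by
    intro T hT
    refine hB₀ w hw1 (Qs a θ) (fun p hp => ?_) T (by rw [hw]; exact fm_sub' i a θ u hT)
    obtain ⟨hp1, _, hp3, _⟩ := Qs_mem hp
    exact ⟨hp1, by rw [hw]; exact hp3⟩
  have hlevR : ∀ T ∈ fm i a θ u, ((∏ p ∈ T, p : ℕ) : ℝ) ≤ (a : ℝ) ^ (δ / 200) := by
    intro T hT
    refine le_trans ?_ hwB
    exact_mod_cast hlev T hT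
  have hcard : ((fm i a θ u).card : ℝ) ≤ (a : ℝ) ^ (δ / 200) := by
    refine le_trans ?_ hwB
    exact_mod_cast fm_card hlev
  rw [th_sum]
  have e1 : ∀ W : ℝ, ((Bb a).card : ℝ) / 30 * TH i a θ u * W =
      ∑ T ∈ fm i a θ u, ((Bb a).card : ℝ) / 30 * ((-1 : ℝ) ^ T.card * ∏ p ∈ T, ga a p) * W := by
    intro W
    unfold TH
    rw [Finset.mul_sum, Finset.sum_mul]
  rw [e1, ← Finset.sum_sub_distrib]
  refine le_trans (Finset.abs_sum_le_sum_abs _ _) ?_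
  have hone : ∀ T ∈ fm i a θ u, |(-1 : ℝ) ^ T.card *
      ∑ b ∈ (Bb a).filter (fun b : ℕ => b % 30 = b0 ∧ ∀ p ∈ T, (p : ℤ) ∣ Fb a b),
        ∑ m ∈ Icc 1 ⌊(a : ℝ) ^ (1 - δ)⌋₊, ∑ n ∈ Icc 1 ⌊(a : ℝ) ^ (1 / 8 - δ)⌋₊,
          al m * be n * (if m * n ∣ a * b + 1 then (1 : ℝ) else 0) -
      ((Bb a).card : ℝ) / 30 * ((-1 : ℝ) ^ T.card * ∏ p ∈ T, ga a p) *
        ∑ m ∈ Icc 1 ⌊(a : ℝ) ^ (1 - δ)⌋₊, ∑ n ∈ Icc 1 ⌊(a : ℝ) ^ (1 / 8 - δ)⌋₊,
          al m * be n / (m * n)| ≤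
      (a : ℝ) ^ (δ / 200) * (C * B ^ 2 * (a : ℝ) ^ (1 - δ / 20)) := by
    intro T hT
    have hTQ : T ⊆ Qs a θ := mem_powerset.1 (fm_sub i a θ u hT)
    have h30 : ((30 * ∏ p ∈ T, p : ℕ) : ℝ) ≤ (a : ℝ) ^ (δ / 10) := by
      push_cast
      have k1 := hlevR T hT
      push_cast at k1
      have k2 : (a : ℝ) ^ (δ / 10) = (a : ℝ) ^ (δ / 10 - δ / 200) * (a : ℝ) ^ (δ / 200) := by
        rw [← Real.rpow_add ha0]
        congr 1
        ring
      rw [k2]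
      exact mul_le_mul ha30 k1 (by positivity) (by positivity)
    have k3 := H3 a b0 T B al be ha1 hb0 (fun p hp => ⟨(Qs_mem (hTQ hp)).1, (Qs_mem (hTQ hp)).2.1⟩)
      h30 hal hbe (fun m hm => cop hTQ ha5 (hal' m hm)) (fun m hm => cop hTQ ha5 (hbe' m hm))
    have k4 : (∏ p ∈ T, (rt a p : ℝ)) ≤ (a : ℝ) ^ (δ / 200) := by
      refine le_trans ?_ (hlevR T hT)
      have : ∏ p ∈ T, rt a p ≤ ∏ p ∈ T, p := Finset.prod_le_prod' fun p _ => rt_le a p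
      exact_mod_cast this
    have hr : ∀ X Y Z W : ℝ, |(-1 : ℝ) ^ T.card * X - Y * ((-1 : ℝ) ^ T.card * Z) * W| =
        |X - Y * Z * W| := by
      intro X Y Z W
      rw [show (-1 : ℝ) ^ T.card * X - Y * ((-1 : ℝ) ^ T.card * Z) * W =
        (-1 : ℝ) ^ T.card * (X - Y * Z * W) by ring, abs_mul, abs_pow, abs_neg, abs_one, one_pow,
        one_mul]
    rw [hr]
    exact le_trans k3 (mul_le_mul_of_nonneg_right k4 (by positivity))
  refine le_trans (Finset.sum_le_card_nsmul _ _ _ hone) ?_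
  rw [nsmul_eq_mul]
  refine le_trans (mul_le_mul_of_nonneg_right hcard (by positivity)) ?_
  have k5 : (a : ℝ) ^ (δ / 200) * ((a : ℝ) ^ (δ / 200) * (C * B ^ 2 * (a : ℝ) ^ (1 - δ / 20))) =
      C * B ^ 2 * (a : ℝ) ^ (δ / 200 + δ / 200 + (1 - δ / 20)) := by
    rw [Real.rpow_add ha0, Real.rpow_add ha0]
    ring
  rw [k5]
  refine mul_le_mul_of_nonneg_left ?_ (by positivity)
  exact Real.rpow_le_rpow_of_exponent_le haR (by linarith)

end Pool.Agent.Helper9.TW
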