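import Pool.Agent.Helper9.TW.St
import Pool.Agent.Helper15.AB.M_MT

/-!
# Project TW (MP_5e9b96_nt): module C7, combination
-/

set_option autoImplicit false

noncomputable section

namespace Pool.Agent.Helper9.TW

open Finset Filter Topology
open Pool.Agent.Helper15.AB (StDB StMT)
open Pool.Agent.Helper9.SU (QQ)
open Pool.Agent.Helper18.TR (fam0 fam1)

namespace MC7

theorem sum_ite_le (X k : ℕ) (hk : k ≠ 0) :
    ∑ m ∈ Icc 1 X, (if m ∣ k then (1 : ℝ) else 0) ≤ (k.divisors.card : ℝ) := by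
  rw [Finset.sum_boole]
  have h : ((Icc 1 X).filter (fun m => m ∣ k)).card ≤ k.divisors.card := by
    refine Finset.card_le_card (fun m hm => ?_)
    rw [mem_filter] at hm
    exact Nat.mem_divisors.2 ⟨hm.2, hk⟩
  exact_mod_cast h

theorem G_le (X Y k : ℕ) (hk : k ≠ 0) (B : ℝ) (hB : 0 ≤ B) (al be : ℕ → ℝ)
    (ha : ∀ m, |al m| ≤ B) (hb : ∀ m, |be m| ≤ B) :
    |∑ m ∈ Icc 1 X, ∑ n ∈ Icc 1 Y, al m * be n * (if m * n ∣ k then (1 : ℝ) else 0)| ≤
      B ^ 2 * (k.divisors.card : ℝ) ^ 2 := by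
  have h1 : |∑ m ∈ Icc 1 X, ∑ n ∈ Icc 1 Y, al m * be n * (if m * n ∣ k then (1 : ℝ) else 0)| ≤
      ∑ m ∈ Icc 1 X, ∑ n ∈ Icc 1 Y,
        B ^ 2 * ((if m ∣ k then (1 : ℝ) else 0) * (if n ∣ k then (1 : ℝ) else 0)) := by
    refine le_trans (Finset.abs_sum_le_sum_abs _ _) (Finset.sum_le_sum fun m _ => ?_)
    refine le_trans (Finset.abs_sum_le_sum_abs _ _) (Finset.sum_le_sum fun n _ => ?_)
    rw [abs_mul, abs_mul]
    have h2 : |al m| * |be n| ≤ B ^ 2 := by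
      rw [sq]
      exact mul_le_mul (ha m) (hb n) (abs_nonneg _) hB
    by_cases h : m * n ∣ k
    · have h3 : m ∣ k := dvd_trans (Dvd.intro _ rfl) h
      have h4 : n ∣ k := dvd_trans (Dvd.intro_left _ rfl) h
      rw [if_pos h, if_pos h3, if_pos h4]
      simpa using h2
    · rw [if_neg h]
      simp only [abs_zero, mul_zero]
      positivity
  refine le_trans h1 ?_
  have h5 : ∑ m ∈ Icc 1 X, ∑ n ∈ Icc 1 Y,
        B ^ 2 * ((if m ∣ k then (1 : ℝ) else 0) * (if n ∣ k then (1 : ℝ) else 0)) =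
      B ^ 2 * ((∑ m ∈ Icc 1 X, (if m ∣ k then (1 : ℝ) else 0)) *
        ∑ n ∈ Icc 1 Y, (if n ∣ k then (1 : ℝ) else 0)) := by
    rw [Finset.sum_mul_sum, Finset.mul_sum]
    refine Finset.sum_congr rfl fun m _ => ?_
    rw [Finset.mul_sum]
  rw [h5]
  refine mul_le_mul_of_nonneg_left ?_ (by positivity)
  rw [sq]
  refine mul_le_mul (sum_ite_le X k hk) (sum_ite_le Y k hk) ?_ (by positivity)
  exact Finset.sum_nonneg fun n _ => by positivity

theorem fam0_sub (w b : ℕ) (Q : Finset ℕ) : fam0 w b Q ⊆ Q.powerset := by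
  intro T hT
  simp only [fam0, Finset.mem_filter] at hT
  exact hT.1

theorem fam1_sub (w b : ℕ) (Q : Finset ℕ) : fam1 w b Q ⊆ Q.powerset := by
  intro T hT
  simp only [fam1, Finset.mem_filter] at hT
  exact hT.1

theorem fm_sub (i a : ℕ) (θ : ℝ) (u : ℕ) : fm i a θ u ⊆ (Qs a θ).powerset := by
  unfold fm
  split_ifs
  · exact fam0_sub _ _ _
  · exact Finset.union_subset (fam0_sub _ _ _) (fam1_sub _ _ _)

theorem Qs_prime {a : ℕ} {θ : ℝ} {p : ℕ} (hp : p ∈ Qs a θ) : p.Prime ∧ 7 ≤ p := by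
  unfold Qs at hp
  rw [mem_filter, mem_Icc] at hp
  exact ⟨hp.2.1, hp.1.1⟩

theorem th_le (i a : ℕ) (θ : ℝ) (u b : ℕ) (hF : Fb a b ≠ 0) :
    |th i a θ u b| ≤ ((Fb a b).natAbs.divisors.card : ℝ) := by
  classical
  unfold th
  have h1 : |∑ T ∈ fm i a θ u, (-1 : ℝ) ^ T.card *
      ∏ p ∈ T, (if (p : ℤ) ∣ Fb a b then (1 : ℝ) else 0)| ≤
      ∑ T ∈ fm i a θ u, (if ∀ p : ℕ, p ∈ T → (p : ℤ) ∣ Fb a b then (1 : ℝ) else 0) := by
    refine le_trans (Finset.abs_sum_le_sum_abs _ _) (Finset.sum_le_sum fun T _ => ?_)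
    rw [abs_mul, abs_pow, abs_neg, abs_one, one_pow, one_mul]
    by_cases h : ∀ p ∈ T, (p : ℤ) ∣ Fb a b
    · rw [if_pos h, Finset.prod_congr rfl (fun p hp => if_pos (h p hp))]
      simp
    · rw [if_neg h]
      push Not at h
      obtain ⟨p, hp, hpF⟩ := h
      rw [Finset.prod_eq_zero hp (if_neg hpF)]
      simp
  refine le_trans h1 ?_
  rw [Finset.sum_boole]
  have h2 : ((fm i a θ u).filter (fun T : Finset ℕ => ∀ p : ℕ, p ∈ T → (p : ℤ) ∣ Fb a b)).card ≤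
      (Fb a b).natAbs.divisors.card := by
    have hpr : ∀ T ∈ (fm i a θ u).filter (fun T : Finset ℕ => ∀ p : ℕ, p ∈ T → (p : ℤ) ∣ Fb a b),
        ∀ p ∈ T, p.Prime := by
      intro T hT p hp
      rw [mem_filter] at hT
      exact (Qs_prime (mem_powerset.1 (fm_sub i a θ u hT.1) hp)).1
    refine Finset.card_le_card_of_injOn (fun T => ∏ p ∈ T, p) ?_ ?_
    · intro T hT
      have hT' : T ∈ (fm i a θ u).filter (fun T : Finset ℕ => ∀ p : ℕ, p ∈ T → (p : ℤ) ∣ Fb a b) := by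
        exact_mod_cast hT
      rw [Finset.mem_coe, Nat.mem_divisors]
      refine ⟨?_, by simpa using hF⟩
      refine Finset.prod_primes_dvd _ (fun p hp => (hpr T hT' p hp).prime) (fun p hp => ?_)
      rw [mem_filter] at hT'
      exact Int.natCast_dvd.1 (hT'.2 p hp)
    · intro T hT S hS hTS
      have hT' : T ∈ (fm i a θ u).filter (fun T : Finset ℕ => ∀ p : ℕ, p ∈ T → (p : ℤ) ∣ Fb a b) := by
        exact_mod_cast hT
      have hS' : S ∈ (fm i a θ u).filter (fun T : Finset ℕ => ∀ p : ℕ, p ∈ T → (p : ℤ) ∣ Fb a b) := by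
        exact_mod_cast hS
      have h3 := Nat.primeFactors_prod (hpr T hT')
      have h4 := Nat.primeFactors_prod (hpr S hS')
      simp only at hTS
      rw [← h3, ← h4, hTS]
  exact_mod_cast h2

theorem TH_le (h1 : StC1) (hMT : StMT) : ∃ K : ℝ, 0 < K ∧ ∀ (i a : ℕ) (θ : ℝ) (u : ℕ), 3 ≤ a →
    θ ≤ 1 → |TH i a θ u| ≤ K * Real.log a ^ 3 := by
  obtain ⟨C, hC, hM⟩ := hMT
  refine ⟨Real.exp (3 * C), Real.exp_pos _, fun i a θ u ha hθ => ?_⟩
  have ha0 : (3 : ℝ) ≤ a := by exact_mod_cast ha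
  have hl0 : 1 ≤ Real.log a := by
    rw [← Real.log_exp 1]
    exact Real.log_le_log (Real.exp_pos _) (le_trans (le_of_lt Real.exp_one_lt_d9) (by linarith))
  have hga0 : ∀ p, 0 ≤ ga a p := fun p => by unfold ga; positivity
  have hga : ∀ p ∈ Qs a θ, ga a p ≤ 3 / p := by
    intro p hp
    obtain ⟨hp1, hp2⟩ := Qs_prime hp
    unfold ga
    have h3 : (rt a p : ℝ) ≤ 3 := by exact_mod_cast h1.2 a p hp1 hp2
    exact div_le_div_of_nonneg_right h3 (by positivity)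
  have e1 : |TH i a θ u| ≤ ∑ T ∈ (Qs a θ).powerset, ∏ p ∈ T, ga a p := by
    unfold TH
    refine le_trans (Finset.abs_sum_le_sum_abs _ _) ?_
    refine le_trans (Finset.sum_le_sum fun T _ => ?_)
      (Finset.sum_le_sum_of_subset_of_nonneg (fm_sub i a θ u)
        fun T _ _ => Finset.prod_nonneg fun p _ => hga0 p)
    rw [abs_mul, abs_pow, abs_neg, abs_one, one_pow, one_mul,
      abs_of_nonneg (Finset.prod_nonneg fun p _ => hga0 p)]
  have e2 : ∑ T ∈ (Qs a θ).powerset, ∏ p ∈ T, ga a p = ∏ p ∈ Qs a θ, (1 + ga a p) :=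
    (Finset.prod_one_add _).symm
  have e3 : ∏ p ∈ Qs a θ, (1 + ga a p) ≤ Real.exp (∑ p ∈ Qs a θ, ga a p) := by
    rw [Real.exp_sum]
    refine Finset.prod_le_prod (fun p _ => by have := hga0 p; linarith) (fun p _ => ?_)
    have := Real.add_one_le_exp (ga a p)
    linarith
  have e4 : ∑ p ∈ Qs a θ, ga a p ≤ 3 * ∑ p ∈ (Icc 1 ⌊(a : ℝ)⌋₊).filter Nat.Prime, (1 : ℝ) / p := by
    rw [Finset.mul_sum]
    have e7 : ∑ p ∈ Qs a θ, ga a p ≤ ∑ p ∈ Qs a θ, 3 * ((1 : ℝ) / p) := by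
      refine Finset.sum_le_sum fun p hp => ?_
      have := hga p hp
      rw [mul_one_div]
      exact this
    refine le_trans e7 (Finset.sum_le_sum_of_subset_of_nonneg ?_ fun p _ _ => by positivity)
    · intro p hp
      obtain ⟨hp1, hp2⟩ := Qs_prime hp
      unfold Qs at hp
      rw [mem_filter, mem_Icc] at hp
      rw [mem_filter, mem_Icc, Nat.floor_natCast]
      refine ⟨⟨by omega, ?_⟩, hp1⟩
      have h5 : (p : ℝ) < (a : ℝ) := by
        refine lt_of_lt_of_le hp.2.2 ?_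
        calc (a : ℝ) ^ θ ≤ (a : ℝ) ^ (1 : ℝ) := Real.rpow_le_rpow_of_exponent_le (by linarith) hθ
          _ = a := Real.rpow_one _
      exact_mod_cast h5.le
  have e5 := hM a ha0
  have e6 : ∑ p ∈ (Icc 1 ⌊(a : ℝ)⌋₊).filter Nat.Prime, (1 : ℝ) / p ≤
      Real.log (Real.log a) + C := by
    have := (abs_le.1 e5).2
    linarith
  calc |TH i a θ u| ≤ ∏ p ∈ Qs a θ, (1 + ga a p) := by rw [← e2]; exact e1
    _ ≤ Real.exp (∑ p ∈ Qs a θ, ga a p) := e3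
    _ ≤ Real.exp (3 * (Real.log (Real.log a) + C)) := Real.exp_le_exp.2 (by linarith)
    _ = Real.exp (3 * C) * Real.log a ^ 3 := by
        rw [mul_add, Real.exp_add, mul_comm (Real.exp (3 * C))]
        congr 1
        rw [show (3 : ℝ) * Real.log (Real.log a) = Real.log (Real.log a ^ 3) by
          rw [Real.log_pow]; norm_num]
        rw [Real.exp_log (by positivity)]

theorem Fb_bound (a b : ℕ) (ha : 2 ≤ a) (hb : b ∈ Bb a) :
    Fb a b ≠ 0 ∧ (Fb a b).natAbs ≤ a ^ 7 ∧ a * b + 1 ≤ a ^ 2 := by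
  unfold Bb at hb
  rw [mem_Ioc] at hb
  obtain ⟨hb1, hb2⟩ := hb
  have hb3 : 2 * b ≤ a := by omega
  have hb4 : 1 ≤ b := by omega
  have k1 : a * b + 1 ≤ a ^ 2 := by nlinarith
  have hQ1 : 0 < QQ (a : ℤ) b := by
    unfold QQ
    have h1 : (0 : ℤ) < (a : ℤ) + 2 - b := by omega
    have h2 : (0 : ℤ) ≤ ((a : ℤ) + 1) * ((b : ℤ) - 1) ^ 2 := by positivity
    have h3 : (0 : ℤ) < ((a : ℤ) + 2 - b) ^ 2 := by positivity
    linarith
  have hQ2 : QQ (a : ℤ) b ≤ (a : ℤ) ^ 5 := by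
    unfold QQ
    have h1 : ((a : ℤ) + 2 - b) ^ 2 ≤ (2 * a) ^ 2 := by
      apply pow_le_pow_left₀ <;> omega
    have h2 : ((b : ℤ) - 1) ^ 2 ≤ (a : ℤ) ^ 2 := by
      apply pow_le_pow_left₀ <;> omega
    have h3 : ((a : ℤ) + 1) * ((b : ℤ) - 1) ^ 2 ≤ (2 * a) * (a : ℤ) ^ 2 := by
      apply mul_le_mul (by omega) h2 (by positivity) (by positivity)
    have ha2 : (2 : ℤ) ≤ a := by exact_mod_cast ha
    have h4 : (4 : ℤ) * (a : ℤ) ^ 2 ≤ 2 * (a : ℤ) ^ 3 := by nlinarith [sq_nonneg (a : ℤ)]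
    have h5 : (4 : ℤ) * (a : ℤ) ^ 3 ≤ (a : ℤ) ^ 5 := by
      have : (4 : ℤ) ≤ (a : ℤ) ^ 2 := by nlinarith
      calc (4 : ℤ) * (a : ℤ) ^ 3 ≤ (a : ℤ) ^ 2 * (a : ℤ) ^ 3 :=
            mul_le_mul_of_nonneg_right this (by positivity)
        _ = (a : ℤ) ^ 5 := by ring
    nlinarith
  refine ⟨?_, ?_, k1⟩
  · unfold Fb
    have : (0 : ℤ) < (a : ℤ) * b + 1 := by positivity
    positivity
  · have h6 : Fb a b ≤ (a : ℤ) ^ 7 := by
      unfold Fb
      have h7 : (a : ℤ) * b + 1 ≤ (a : ℤ) ^ 2 := by exact_mod_cast k1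
      calc ((a : ℤ) * b + 1) * QQ a b ≤ (a : ℤ) ^ 2 * (a : ℤ) ^ 5 :=
            mul_le_mul h7 hQ2 hQ1.le (by positivity)
        _ = (a : ℤ) ^ 7 := by ring
    have h8 : 0 ≤ Fb a b := by
      unfold Fb
      have : (0 : ℤ) < (a : ℤ) * b + 1 := by positivity
      positivity
    zify
    rw [abs_of_nonneg h8]
    exact h6

theorem mem_B1 {a b : ℕ} {θ : ℝ} (hb : b ∈ B1 a θ) : b ∈ Bb a ∧
    ∀ p : ℕ, p.Prime → (a : ℝ) ^ θ ≤ (p : ℝ) → ¬ p ^ 2 ∣ a * b + 1 := by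
  classical
  simp only [B1, Finset.mem_filter] at hb
  exact hb

end MC7

open MC7 in
theorem hC7 (h4 : StC4) (h5 : StC5) (h6 : StC6) (hQ : StSQ) (hDB : StDB) (h1 : StC1)
    (hMT : StMT) : StC7 := by
  intro δ u hδ hδ1
  obtain ⟨θ₁, hθ₁, H4⟩ := h4 δ u hδ hδ1
  refine ⟨min θ₁ (1 / 10), lt_min hθ₁ (by norm_num), fun θ hθ hθle => ?_⟩
  have hθ1 : θ ≤ θ₁ := hθle.trans (min_le_left _ _)
  have hθ2 : θ ≤ 1 / 10 := hθle.trans (min_le_right _ _)
  obtain ⟨C4, a4, hC4, H4'⟩ := H4 θ hθ hθ1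
  obtain ⟨Cd, hCd, HD⟩ := hDB (θ / 24) (by positivity)
  obtain ⟨Cs, hCs, HS⟩ := hQ θ (θ / 24) hθ hθ2 (by positivity)
  obtain ⟨K, hK, HK⟩ := MC7.TH_le h1 hMT
  obtain ⟨κ, hκ⟩ : ∃ κ : ℝ, κ = min (θ / 4) (δ / 80) := ⟨_, rfl⟩
  have hκ0 : 0 < κ := by rw [hκ]; exact lt_min (by positivity) (by positivity)
  have hκθ : κ ≤ θ / 4 := by rw [hκ]; exact min_le_left _ _
  have hκδ : κ ≤ δ / 80 := by rw [hκ]; exact min_le_right _ _
  refine ⟨κ, hκ0, fun T B => ?_⟩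
  obtain ⟨KK, hKK⟩ : ∃ KK : ℝ, KK = T * B ^ 2 * Cd ^ 3 * Cs + T * (C4 * B ^ 2) +
    2 * K * T * B ^ 2 * (1 + 20 / θ) ^ 5 := ⟨_, rfl⟩
  have htend : Tendsto (fun a : ℕ => (a : ℝ) ^ κ) atTop atTop :=
    (tendsto_rpow_atTop hκ0).comp tendsto_natCast_atTop_atTop
  obtain ⟨a5, ha5⟩ := Filter.eventually_atTop.1 (htend.eventually_ge_atTop KK)
  refine ⟨max (max a4 a5) 3, fun i a b0 l ha hb0 hDec => ?_⟩
  have ha4 : a4 ≤ a := le_trans (le_trans (le_max_left _ _) (le_max_left _ _)) ha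
  have ha5' : a5 ≤ a := le_trans (le_trans (le_max_right _ _) (le_max_left _ _)) ha
  have ha3 : 3 ≤ a := le_trans (le_max_right _ _) ha
  have haR : (3 : ℝ) ≤ a := by exact_mod_cast ha3
  have ha0 : (0 : ℝ) < a := by linarith
  have ha1 : (1 : ℝ) ≤ a := by linarith
  obtain ⟨al, be, hB, hal, hbe, hl⟩ := hDec
  have hB0 : 0 ≤ B := le_trans (abs_nonneg _) (hB 0 0).1
  -- the plain double sum
  obtain ⟨G, hG⟩ : ∃ G : ℕ → ℕ → ℝ, ∀ t b, G t b = ∑ m ∈ Icc 1 ⌊(a : ℝ) ^ (1 - δ)⌋₊,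
      ∑ n ∈ Icc 1 ⌊(a : ℝ) ^ (1 / 8 - δ)⌋₊,
        al t m * be t n * (if m * n ∣ a * b + 1 then (1 : ℝ) else 0) := ⟨_, fun _ _ => rfl⟩
  obtain ⟨D, hD⟩ : ∃ D : ℕ → ℝ, ∀ t, D t = ∑ m ∈ Icc 1 ⌊(a : ℝ) ^ (1 - δ)⌋₊,
      ∑ n ∈ Icc 1 ⌊(a : ℝ) ^ (1 / 8 - δ)⌋₊, al t m * be t n / (m * n) := ⟨_, fun _ => rfl⟩
  have hC5 : ∀ b ∈ B1 a θ, ∑ q ∈ (a * b + 1).divisors, l q = ∑ t ∈ range T, G t b := by
    intro b hb
    rw [h5 a (a * b + 1) T ((a : ℝ) ^ θ) _ _ l al be (by omega) (mem_B1 hb).2 hal hbe hl]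
    exact Finset.sum_congr rfl fun t _ => (hG t b).symm
  have hsub : B1 a θ ⊆ Bb a := fun b hb => (mem_B1 hb).1
  have hs1 : ∑ b ∈ (B1 a θ).filter (fun b => b % 30 = b0), th i a θ u b *
        ∑ q ∈ (a * b + 1).divisors, l q =
      ∑ b ∈ (Bb a).filter (fun b => b % 30 = b0), th i a θ u b * ∑ t ∈ range T, G t b -
      ∑ b ∈ (Bb a \ B1 a θ).filter (fun b => b % 30 = b0), th i a θ u b *
        ∑ t ∈ range T, G t b := by
    rw [Finset.sum_filter, Finset.sum_filter, Finset.sum_filter, ← Finset.sum_sdiff hsub,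
      add_sub_cancel_left]
    refine Finset.sum_congr rfl fun b hb => ?_
    rw [hC5 b hb]
  -- first error
  have hE1 : |∑ b ∈ (Bb a \ B1 a θ).filter (fun b => b % 30 = b0), th i a θ u b *
        ∑ t ∈ range T, G t b| ≤ T * B ^ 2 * Cd ^ 3 * Cs * (a : ℝ) ^ (1 - θ / 2) := by
    have hp : ∀ b ∈ (Bb a \ B1 a θ).filter (fun b => b % 30 = b0),
        |th i a θ u b * ∑ t ∈ range T, G t b| ≤
          Cd * (a : ℝ) ^ (7 * (θ / 24)) * (T * (B ^ 2 * (Cd * (a : ℝ) ^ (2 * (θ / 24))) ^ 2)) := by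
      intro b hb
      rw [mem_filter, Finset.mem_sdiff] at hb
      obtain ⟨hF1, hF2, hF3⟩ := Fb_bound a b (by omega) hb.1.1
      rw [abs_mul]
      have k1 : |th i a θ u b| ≤ Cd * (a : ℝ) ^ (7 * (θ / 24)) := by
        refine le_trans (th_le i a θ u b hF1) (le_trans (HD _ (by omega)) ?_)
        refine mul_le_mul_of_nonneg_left ?_ (by linarith)
        rw [Real.rpow_mul ha0.le]
        refine Real.rpow_le_rpow (by positivity) ?_ (by positivity)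
        rw [show ((7 : ℝ)) = ((7 : ℕ) : ℝ) by norm_num, Real.rpow_natCast]
        exact_mod_cast hF2
      have k2 : ((a * b + 1).divisors.card : ℝ) ≤ Cd * (a : ℝ) ^ (2 * (θ / 24)) := by
        refine le_trans (HD _ (by omega)) ?_
        refine mul_le_mul_of_nonneg_left ?_ (by linarith)
        rw [Real.rpow_mul ha0.le]
        refine Real.rpow_le_rpow (by positivity) ?_ (by positivity)
        rw [show ((2 : ℝ)) = ((2 : ℕ) : ℝ) by norm_num, Real.rpow_natCast]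
        exact_mod_cast hF3
      have k3 : |∑ t ∈ range T, G t b| ≤
          T * (B ^ 2 * (Cd * (a : ℝ) ^ (2 * (θ / 24))) ^ 2) := by
        refine le_trans (Finset.abs_sum_le_sum_abs _ _) ?_
        refine le_trans (Finset.sum_le_card_nsmul _ _
          (B ^ 2 * (Cd * (a : ℝ) ^ (2 * (θ / 24))) ^ 2) fun t _ => ?_) ?_
        · rw [hG t b]
          refine le_trans (G_le _ _ (a * b + 1) (by omega) B hB0 (al t) (be t)
            (fun m => (hB t m).1) (fun m => (hB t m).2)) ?_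
          refine mul_le_mul_of_nonneg_left ?_ (by positivity)
          exact pow_le_pow_left₀ (by positivity) k2 2
        · rw [card_range, nsmul_eq_mul]
      exact mul_le_mul k1 k3 (abs_nonneg _) (by positivity)
    refine le_trans (Finset.abs_sum_le_sum_abs _ _) ?_
    refine le_trans (Finset.sum_le_card_nsmul _ _ _ hp) ?_
    rw [nsmul_eq_mul]
    have k4 : ((((Bb a \ B1 a θ).filter (fun b => b % 30 = b0)).card : ℕ) : ℝ) ≤
        Cs * (a : ℝ) ^ (1 - θ + θ / 24) := by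
      refine le_trans ?_ (HS a (by omega))
      exact_mod_cast Finset.card_le_card (Finset.filter_subset _ _)
    refine le_trans (mul_le_mul_of_nonneg_right k4 (by positivity)) (le_of_eq ?_)
    have k5 : (a : ℝ) ^ (1 - θ / 2) = (a : ℝ) ^ (1 - θ + θ / 24) * (a : ℝ) ^ (7 * (θ / 24)) *
        ((a : ℝ) ^ (2 * (θ / 24)) * (a : ℝ) ^ (2 * (θ / 24))) := by
      rw [← Real.rpow_add ha0, ← Real.rpow_add ha0, ← Real.rpow_add ha0]
      congr 1
      ring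
    rw [k5]
    ring
  -- second error
  have hE2 : |∑ b ∈ (Bb a).filter (fun b => b % 30 = b0), th i a θ u b * ∑ t ∈ range T, G t b -
      ((Bb a).card : ℝ) / 30 * TH i a θ u * ∑ t ∈ range T, D t| ≤
      T * (C4 * B ^ 2) * (a : ℝ) ^ (1 - δ / 40) := by
    have k1 : ∑ b ∈ (Bb a).filter (fun b => b % 30 = b0), th i a θ u b * ∑ t ∈ range T, G t b -
      ((Bb a).card : ℝ) / 30 * TH i a θ u * ∑ t ∈ range T, D t =
      ∑ t ∈ range T, (∑ b ∈ (Bb a).filter (fun b => b % 30 = b0), th i a θ u b * G t b -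
        ((Bb a).card : ℝ) / 30 * TH i a θ u * D t) := by
      rw [Finset.sum_sub_distrib, Finset.sum_comm, Finset.mul_sum]
      congr 1
      refine Finset.sum_congr rfl fun b _ => ?_
      rw [Finset.mul_sum]
    rw [k1]
    refine le_trans (Finset.abs_sum_le_sum_abs _ _) ?_
    refine le_trans (Finset.sum_le_card_nsmul _ _
      (C4 * B ^ 2 * (a : ℝ) ^ (1 - δ / 40)) fun t _ => ?_) ?_
    · have := H4' i a b0 B (al t) (be t) ha4 hb0 (fun m => (hB t m).1) (fun m => (hB t m).2)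
        (fun m hm => (hal t m hm).1) (fun m hm => (hbe t m hm).1)
      rw [← hD t] at this
      simp only [← hG t] at this
      exact this
    · rw [card_range, nsmul_eq_mul]
      exact le_of_eq (by ring)
  -- third error
  have hE3 : |((Bb a).card : ℝ) / 30 * TH i a θ u * ∑ t ∈ range T, D t -
      ((Bb a).card : ℝ) / 30 * TH i a θ u * ms a l| ≤
      2 * K * T * B ^ 2 * (1 + 20 / θ) ^ 5 * (a : ℝ) ^ (1 - θ / 2) := by
    rw [← mul_sub, abs_mul, abs_mul, abs_sub_comm]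
    have hz1 : 1 ≤ (a : ℝ) ^ θ := Real.one_le_rpow ha1 hθ.le
    have k1 := h6 a T ((a : ℝ) ^ θ) ((a : ℝ) ^ (1 - δ)) ((a : ℝ) ^ (1 / 8 - δ)) B l al be (by omega)
      hz1 (Real.one_le_rpow ha1 (by linarith)) (Real.one_le_rpow ha1 (by linarith)) (by
        rw [← Real.rpow_add ha0, ← Real.rpow_natCast]
        exact Real.rpow_le_rpow_of_exponent_le ha1 (by push_cast; linarith)) hB hal hbe hl
    have k2 : ∑ t ∈ range T, ∑ m ∈ Icc 1 ⌊(a : ℝ) ^ (1 - δ)⌋₊,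
        ∑ n ∈ Icc 1 ⌊(a : ℝ) ^ (1 / 8 - δ)⌋₊, al t m * be t n / (m * n) = ∑ t ∈ range T, D t :=
      Finset.sum_congr rfl fun t _ => (hD t).symm
    rw [k2] at k1
    have k3 : |((Bb a).card : ℝ) / 30| ≤ a := by
      rw [abs_of_nonneg (by positivity)]
      have : (Bb a).card ≤ a := by
        unfold Bb
        rw [Nat.card_Ioc]
        omega
      have h2 : ((Bb a).card : ℝ) ≤ a := by exact_mod_cast this
      linarith
    have k4 := HK i a θ u ha3 (by linarith)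
    have hlog0 : 0 ≤ Real.log a := Real.log_nonneg ha1
    have k5 : 1 + 2 * Real.log a ≤ (1 + 20 / θ) * (a : ℝ) ^ (θ / 10) := by
      have h2 := Real.log_le_rpow_div ha0.le (show 0 < θ / 10 by positivity)
      have h3 : 1 ≤ (a : ℝ) ^ (θ / 10) := Real.one_le_rpow ha1 (by positivity)
      have h4 : (1 + 20 / θ) * (a : ℝ) ^ (θ / 10) =
          (a : ℝ) ^ (θ / 10) + 2 * ((a : ℝ) ^ (θ / 10) / (θ / 10)) := by
        field_simp
        ring
      rw [h4]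
      linarith
    have k6 : Real.log a ^ 3 * (1 + 2 * Real.log a) ^ 2 ≤
        (1 + 20 / θ) ^ 5 * (a : ℝ) ^ (θ / 2) := by
      have h2 : Real.log a ^ 3 ≤ (1 + 2 * Real.log a) ^ 3 :=
        pow_le_pow_left₀ hlog0 (by linarith) 3
      have h3 : (a : ℝ) ^ (θ / 2) = ((a : ℝ) ^ (θ / 10)) ^ 5 := by
        rw [← Real.rpow_natCast, ← Real.rpow_mul ha0.le]
        congr 1
        push_cast
        ring
      calc Real.log a ^ 3 * (1 + 2 * Real.log a) ^ 2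
          ≤ (1 + 2 * Real.log a) ^ 3 * (1 + 2 * Real.log a) ^ 2 :=
            mul_le_mul_of_nonneg_right h2 (by positivity)
        _ = (1 + 2 * Real.log a) ^ 5 := by ring
        _ ≤ ((1 + 20 / θ) * (a : ℝ) ^ (θ / 10)) ^ 5 := pow_le_pow_left₀ (by positivity) k5 5
        _ = (1 + 20 / θ) ^ 5 * (a : ℝ) ^ (θ / 2) := by rw [mul_pow, h3]
    have k7 : (a : ℝ) ^ (1 - θ / 2) = a * (a : ℝ) ^ (θ / 2) / (a : ℝ) ^ θ := by
      rw [eq_div_iff (by positivity), ← Real.rpow_add ha0,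
        show (a : ℝ) * (a : ℝ) ^ (θ / 2) = (a : ℝ) ^ (1 : ℝ) * (a : ℝ) ^ (θ / 2) by
          rw [Real.rpow_one], ← Real.rpow_add ha0]
      congr 1
      ring
    calc |((Bb a).card : ℝ) / 30| * |TH i a θ u| * |ms a l - ∑ t ∈ range T, D t|
        ≤ a * (K * Real.log a ^ 3) *
          (T * B ^ 2 * (2 / (a : ℝ) ^ θ) * (1 + 2 * Real.log a) ^ 2) := by
          refine mul_le_mul (mul_le_mul k3 k4 (abs_nonneg _) ha0.le) k1 (abs_nonneg _)
            (by positivity)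
      _ = 2 * K * T * B ^ 2 * (a / (a : ℝ) ^ θ) *
          (Real.log a ^ 3 * (1 + 2 * Real.log a) ^ 2) := by ring
      _ ≤ 2 * K * T * B ^ 2 * (a / (a : ℝ) ^ θ) * ((1 + 20 / θ) ^ 5 * (a : ℝ) ^ (θ / 2)) :=
          mul_le_mul_of_nonneg_left k6 (by positivity)
      _ = 2 * K * T * B ^ 2 * (1 + 20 / θ) ^ 5 * (a : ℝ) ^ (1 - θ / 2) := by
          rw [k7]; ring
  -- assembly
  rw [hs1]
  have hA : (a : ℝ) ^ (1 - θ / 2) ≤ (a : ℝ) ^ (1 - 2 * κ) :=
    Real.rpow_le_rpow_of_exponent_le ha1 (by linarith)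
  have hA' : (a : ℝ) ^ (1 - δ / 40) ≤ (a : ℝ) ^ (1 - 2 * κ) :=
    Real.rpow_le_rpow_of_exponent_le ha1 (by linarith)
  have hfin : KK * (a : ℝ) ^ (1 - 2 * κ) ≤ (a : ℝ) ^ (1 - κ) := by
    have h2 : (a : ℝ) ^ (1 - κ) = (a : ℝ) ^ κ * (a : ℝ) ^ (1 - 2 * κ) := by
      rw [← Real.rpow_add ha0]
      congr 1
      ring
    rw [h2]
    exact mul_le_mul_of_nonneg_right (ha5 a ha5') (by positivity)
  refine le_trans ?_ hfin
  rw [hKK]
  have j1 := le_trans hE1 (mul_le_mul_of_nonneg_left hA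
    (show 0 ≤ T * B ^ 2 * Cd ^ 3 * Cs by positivity))
  have j2 := le_trans hE2 (mul_le_mul_of_nonneg_left hA' (show 0 ≤ T * (C4 * B ^ 2) by positivity))
  have j3 := le_trans hE3 (mul_le_mul_of_nonneg_left hA
    (show 0 ≤ 2 * K * T * B ^ 2 * (1 + 20 / θ) ^ 5 by positivity))
  rw [abs_le] at j1 j2 j3 ⊢
  constructor <;> linarith [j1.1, j1.2, j2.1, j2.2, j3.1, j3.2]

end Pool.Agent.Helper9.TW
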