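import Pool.Agent.Helper9.TW.St

/-!
# Project TW (MP_5e9b96_nt): module CA, C7 for families of weights
-/

set_option autoImplicit false

noncomputable section

namespace Pool.Agent.Helper9.TW

open Finset Filter Topology

namespace MCA

theorem Sp_Rg {a j0 j : ℕ} {ω : ℝ} (ha : 1 ≤ a) (hω : 0 < ω) {m : ℕ} (h : Sp a ω j0 j m) :
    Rg a ((a : ℝ) ^ ((j0 : ℝ) * ω)) m := by
  refine ⟨h.1, fun p hp hpm => ?_⟩
  have h1 := h.2 p hp hpm
  unfold Pr at h1
  rw [mem_biUnion] at h1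
  obtain ⟨i, hi, hpi⟩ := h1
  rw [mem_Ico] at hi
  unfold bx at hpi
  rw [mem_filter] at hpi
  refine ⟨le_trans ?_ hpi.2.2.1, hpi.2.2.2⟩
  refine Real.rpow_le_rpow_of_exponent_le (by exact_mod_cast ha) ?_
  have h2 : (j0 : ℝ) ≤ i := by exact_mod_cast hi.1
  exact mul_le_mul_of_nonneg_right h2 hω.le

theorem Dec_mono {P Q : ℕ → Prop} {M N B : ℝ} {T : ℕ} {l : ℕ → ℝ} (hPQ : ∀ m, P m → Q m)
    (h : Dec P M N T B l) : Dec Q M N T B l := by
  obtain ⟨al, be, h1, h2, h3, h4⟩ := h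
  exact ⟨al, be, h1, fun t m hm => ⟨hPQ m (h2 t m hm).1, (h2 t m hm).2⟩,
    fun t m hm => ⟨hPQ m (h3 t m hm).1, (h3 t m hm).2⟩, h4⟩

end MCA

open MCA in
theorem hCA (h7 : StC7) (hJ : StWFJ) (hMB : StMSB) (hI : StINQ) : StCA := by
  intro f
  obtain ⟨θ₁, hθ₁, H7⟩ := h7 (1 / 1000) f (by norm_num) (by norm_num)
  refine ⟨θ₁, hθ₁, fun u j0 hu hj0 hj0u hθ => ?_⟩
  have hu0 : (1 : ℝ) ≤ u := by exact_mod_cast hu
  have hj00 : (1 : ℝ) ≤ j0 := by exact_mod_cast hj0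
  have hω : (0 : ℝ) < 1 / (4000 * (u : ℝ)) := by positivity
  obtain ⟨κ, hκ, H7'⟩ := H7 ((j0 : ℝ) * (1 / (4000 * u))) (by positivity) hθ
  refine ⟨κ, hκ, fun T B Lam hW => ?_, fun T B Lam j hj1 hj2 hW => ?_⟩
  · obtain ⟨a₀, H⟩ := H7' T B
    filter_upwards [hW, eventually_ge_atTop (max a₀ 2)] with a hWa ha i b0 hb0
    have ha1 : a₀ ≤ a := le_trans (le_max_left _ _) ha
    have ha2 : 2 ≤ a := le_trans (le_max_right _ _) ha
    have haR : (2 : ℝ) ≤ a := by exact_mod_cast ha2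
    have ha0 : (0 : ℝ) < a := by linarith
    refine H i a b0 (Lam a) ha1 hb0 ?_
    refine Dec_mono (fun m hm => Sp_Rg (by omega) hω hm) (hWa _ _ ?_ ?_ ?_)
    · exact Real.one_le_rpow (by linarith) (by norm_num)
    · exact Real.one_le_rpow (by linarith) (by norm_num)
    · rw [← Real.rpow_add ha0]
      congr 1
      push_cast
      field_simp
      norm_num
  · obtain ⟨a₀, H⟩ := H7' T B
    filter_upwards [hW, eventually_ge_atTop (max a₀ 2)] with a hWa ha i b0 hb0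
    have ha1 : a₀ ≤ a := le_trans (le_max_left _ _) ha
    have ha2 : 2 ≤ a := le_trans (le_max_right _ _) ha
    have haR : (2 : ℝ) ≤ a := by exact_mod_cast ha2
    have ha0 : (0 : ℝ) < a := by linarith
    have hM1 : (1 : ℝ) ≤ (a : ℝ) ^ ((1 : ℝ) - 1 / 1000) :=
      Real.one_le_rpow (by linarith) (by norm_num)
    have hN1 : (1 : ℝ) ≤ (a : ℝ) ^ ((1 : ℝ) / 8 - 1 / 1000) :=
      Real.one_le_rpow (by linarith) (by norm_num)
    obtain ⟨x, hx⟩ : ∃ x : ℝ, x = ((4492 * u - (j + 1) : ℕ) : ℝ) * (1 / (4000 * u)) := ⟨_, rfl⟩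
    have hx0 : 0 ≤ x := by rw [hx]; positivity
    rw [← hx] at hWa
    have hxe : x + ((j : ℝ) + 1) * (1 / (4000 * u)) = 1123 / 1000 := by
      rw [hx, Nat.cast_sub (by omega)]
      push_cast
      field_simp
      ring
    have hB0 : 0 ≤ B := by
      obtain ⟨al, be, h1, _⟩ := hWa ((a : ℝ) ^ x) 1
        (Real.one_le_rpow (by linarith) hx0) le_rfl (mul_one _)
      exact le_trans (abs_nonneg _) (h1 0 0).1
    have hjM : (a : ℝ) ^ (((j : ℝ) + 1) * (1 / (4000 * u))) ≤ (a : ℝ) ^ ((1 : ℝ) - 1 / 1000) := by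
      refine Real.rpow_le_rpow_of_exponent_le (by linarith) ?_
      have h2 : (j : ℝ) + 1 ≤ 3996 * u := by exact_mod_cast hj2
      have h3 : (1 : ℝ) - 1 / 1000 = (3996 * u) * (1 / (4000 * u)) := by
        field_simp
        norm_num
      rw [h3]
      exact mul_le_mul_of_nonneg_right h2 hω.le
    have hMN : (a : ℝ) ^ ((1 : ℝ) - 1 / 1000) * (a : ℝ) ^ ((1 : ℝ) / 8 - 1 / 1000) =
        (a : ℝ) ^ (x + ((j : ℝ) + 1) * (1 / (4000 * u))) := by
      rw [← Real.rpow_add ha0, hxe]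
      congr 1
      norm_num
    have hD := hJ a j0 (1123 * u) j (1 / (4000 * u)) x _ _ T B (Lam a) (by omega) hω hj0u hj1 hB0
      hN1 hjM hMN hWa
    have h8 := H i a b0 (bm a (1 / (4000 * u)) j (Lam a)) ha1 hb0 hD
    rw [hMB a j0 (1123 * u) j (1 / (4000 * u)) x T B (Lam a) (by omega) hω hx0
      (by rw [hxe]; norm_num) hWa] at h8
    have h9 : ∀ b : ℕ, ∑ q ∈ (a * b + 1).divisors, bm a (1 / (4000 * u)) j (Lam a) q =
        (ej a (1 / (4000 * u)) j (a * b + 1) : ℝ) * ∑ q ∈ (a * b + 1).divisors, Lam a q :=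
      fun b => (hI a j0 (1123 * u) j (1 / (4000 * u)) x T B (Lam a) (a * b + 1) ha2 hω hx0 hj1
        (by omega) hWa).1
    simp only [h9] at h8
    exact h8

end Pool.Agent.Helper9.TW
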